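import Pool.Agent.Helper78.ZM.Stmts

/-!
# ZM-6: the complex Hessian determinant of the functions `a log (∑ |Φ_j|² + τ) + c`
-/

open Filter Topology Matrix
open scoped ContDiff Real RealInnerProductSpace

namespace Pool.Agent.Helper28.ZM

open Pool.Agent.Helper78.ZM

variable {n : ℕ} (Φ : Cn n → Fin n → ℂ)

/-- the sum `∑ |Φ_j|² + τ` -/
noncomputable def SS (τ : ℝ) (y : Cn n) : ℝ := ∑ j, ‖Φ y j‖ ^ 2 + τ

/-- half of the real derivative of `∑ |Φ_j|²` -/
noncomputable def PP (v y : Cn n) : ℝ :=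
  ∑ l, inner ℝ (Φ y l) (fderiv ℂ (fun z => Φ z l) y v)

/-- second derivatives of the components -/
noncomputable def DD (l : Fin n) (y u v : Cn n) : ℂ :=
  fderiv ℂ (fun z => fderiv ℂ (fun w => Φ w l) z v) y u

/-- half of the real second derivative of `∑ |Φ_j|²` -/
noncomputable def EE (y u v : Cn n) : ℝ :=
  ∑ l, (inner ℝ (Φ y l) (DD Φ l y u v) +
    inner ℝ (fderiv ℂ (fun z => Φ z l) y u) (fderiv ℂ (fun z => Φ z l) y v))

variable {Φ}

theorem SS_pos {τ : ℝ} (hτ : 0 < τ) (y : Cn n) : 0 < SS Φ τ y := by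
  unfold SS
  have : 0 ≤ ∑ j, ‖Φ y j‖ ^ 2 := Finset.sum_nonneg fun _ _ => by positivity
  linarith

theorem hasF (hΦ : ∀ j, ContDiff ℂ ∞ (fun x => Φ x j)) (l : Fin n) (y : Cn n) :
    HasFDerivAt (fun z => Φ z l) ((fderiv ℂ (fun z => Φ z l) y).restrictScalars ℝ) y :=
  (((hΦ l).differentiable (by simp)) y).hasFDerivAt.restrictScalars ℝ

theorem contDiff_fderiv_apply (hΦ : ∀ j, ContDiff ℂ ∞ (fun x => Φ x j)) (l : Fin n) (v : Cn n) :
    ContDiff ℂ ∞ (fun z => fderiv ℂ (fun w => Φ w l) z v) := by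
  have h1 : ContDiff ℂ ∞ (fderiv ℂ (fun w => Φ w l)) := (hΦ l).fderiv_right (by simp)
  exact h1.clm_apply contDiff_const

theorem hasF2 (hΦ : ∀ j, ContDiff ℂ ∞ (fun x => Φ x j)) (l : Fin n) (y v : Cn n) :
    HasFDerivAt (fun z => fderiv ℂ (fun w => Φ w l) z v)
      ((fderiv ℂ (fun z => fderiv ℂ (fun w => Φ w l) z v) y).restrictScalars ℝ) y :=
  (((contDiff_fderiv_apply hΦ l v).differentiable (by simp)) y).hasFDerivAt.restrictScalars ℝ

theorem hasFDerivAt_SS (hΦ : ∀ j, ContDiff ℂ ∞ (fun x => Φ x j)) (τ : ℝ) (y : Cn n) :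
    HasFDerivAt (SS Φ τ) (∑ l, 2 • (innerSL ℝ (Φ y l)).comp
      ((fderiv ℂ (fun z => Φ z l) y).restrictScalars ℝ)) y := by
  have h1 : ∀ l ∈ (Finset.univ : Finset (Fin n)), HasFDerivAt (fun y => ‖Φ y l‖ ^ 2)
      (2 • (innerSL ℝ (Φ y l)).comp ((fderiv ℂ (fun z => Φ z l) y).restrictScalars ℝ)) y :=
    fun l _ => (hasF hΦ l y).norm_sq
  have h2 := HasFDerivAt.fun_sum h1
  exact h2.add_const τ

theorem SS_deriv (hΦ : ∀ j, ContDiff ℂ ∞ (fun x => Φ x j)) (τ : ℝ) (y v : Cn n) :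
    fderiv ℝ (SS Φ τ) y v = 2 * PP Φ v y := by
  rw [(hasFDerivAt_SS hΦ τ y).fderiv]
  simp only [PP, Finset.mul_sum, _root_.sum_apply, ContinuousLinearMap.comp_apply,
    _root_.smul_apply, innerSL_apply_apply, ContinuousLinearMap.coe_restrictScalars', nsmul_eq_mul,
    Nat.cast_ofNat]

theorem lg_deriv (hΦ : ∀ j, ContDiff ℂ ∞ (fun x => Φ x j)) {τ : ℝ} (hτ : 0 < τ) (a c : ℝ)
    (y v : Cn n) : fderiv ℝ (lg Φ τ a c) y v = a * (2 * PP Φ v y / SS Φ τ y) := by
  have h1 := (hasFDerivAt_SS hΦ τ y).log (SS_pos hτ y).ne'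
  have h2 := (h1.const_mul a).add_const c
  have h3 : HasFDerivAt (lg Φ τ a c) _ y := h2
  rw [h3.fderiv]
  have h4 := SS_deriv hΦ τ y v
  rw [(hasFDerivAt_SS hΦ τ y).fderiv] at h4
  rw [_root_.smul_apply, _root_.smul_apply, h4, smul_eq_mul, smul_eq_mul]
  ring

theorem hasFDerivAt_PP (hΦ : ∀ j, ContDiff ℂ ∞ (fun x => Φ x j)) (v y : Cn n) :
    ∃ L : Cn n →L[ℝ] ℝ, HasFDerivAt (PP Φ v) L y ∧ ∀ u, L u = EE Φ y u v := by
  have h1 : ∀ l ∈ (Finset.univ : Finset (Fin n)), HasFDerivAt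
      (fun y => inner ℝ (Φ y l) (fderiv ℂ (fun z => Φ z l) y v)) _ y :=
    fun l _ => (hasF hΦ l y).inner ℝ (hasF2 hΦ l y v)
  have h2 := HasFDerivAt.fun_sum h1
  refine ⟨_, h2, fun u => ?_⟩
  simp [EE, DD, fderivInnerCLM_apply]

theorem lg_D2 (hΦ : ∀ j, ContDiff ℂ ∞ (fun x => Φ x j)) {τ : ℝ} (hτ : 0 < τ) (a c : ℝ)
    (x u v : Cn n) : D2 (lg Φ τ a c) x u v =
      a * (2 * EE Φ x u v / SS Φ τ x - 4 * PP Φ v x * PP Φ u x / SS Φ τ x ^ 2) := by
  unfold D2
  have h0 : (fun y => fderiv ℝ (lg Φ τ a c) y v) = fun y => a * (2 * PP Φ v y / SS Φ τ y) := by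
    ext y
    exact lg_deriv hΦ hτ a c y v
  rw [h0]
  obtain ⟨L, hL, hLu⟩ := hasFDerivAt_PP hΦ v x
  have h4 := (SS_pos (Φ := Φ) hτ x).ne'
  have h1 := ((hL.const_mul 2).mul
    ((hasDerivAt_inv h4).comp_hasFDerivAt x (hasFDerivAt_SS hΦ τ x))).const_mul a
  have h2 := SS_deriv hΦ τ x u
  rw [(hasFDerivAt_SS hΦ τ x).fderiv] at h2
  have h3 : HasFDerivAt (fun y => a * (2 * PP Φ v y / SS Φ τ y)) _ x := h1
  rw [h3.fderiv]
  simp only [_root_.smul_apply, _root_.add_apply, hLu, h2, smul_eq_mul]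
  simp only [Function.comp]
  field_simp
  ring

theorem fd_I (l j : Fin n) (y : Cn n) :
    fderiv ℂ (fun z => Φ z l) y (Pi.single j Complex.I) =
      Complex.I * fderiv ℂ (fun z => Φ z l) y (Pi.single j 1) := by
  have h : (Pi.single j Complex.I : Cn n) = Complex.I • Pi.single j 1 := by
    rw [← Pi.single_smul']; simp
  rw [h, map_smul, smul_eq_mul]

theorem DD_I_left (l j : Fin n) (y v : Cn n) :
    DD Φ l y (Pi.single j Complex.I) v = Complex.I * DD Φ l y (Pi.single j 1) v := by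
  have h : (Pi.single j Complex.I : Cn n) = Complex.I • Pi.single j 1 := by
    rw [← Pi.single_smul']; simp
  unfold DD
  rw [h, map_smul, smul_eq_mul]

theorem DD_I_right (hΦ : ∀ j, ContDiff ℂ ∞ (fun x => Φ x j)) (l k : Fin n) (y u : Cn n) :
    DD Φ l y u (Pi.single k Complex.I) = Complex.I * DD Φ l y u (Pi.single k 1) := by
  unfold DD
  have h : (fun z => fderiv ℂ (fun w => Φ w l) z (Pi.single k Complex.I)) =
      fun z => Complex.I * fderiv ℂ (fun w => Φ w l) z (Pi.single k 1) := by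
    ext z
    exact fd_I l k z
  rw [h, fderiv_const_mul (((contDiff_fderiv_apply hΦ l _).differentiable (by simp)) y)]
  rw [_root_.smul_apply, smul_eq_mul]

/-- the vector `A^T conj(Φ)` -/
noncomputable def pp (Φ : Cn n → Fin n → ℂ) (x : Cn n) (j : Fin n) : ℂ :=
  ∑ l, star (Φ x l) * jacM Φ x l j

theorem PP_one (j : Fin n) (x : Cn n) : PP Φ (Pi.single j 1) x = (pp Φ x j).re := by
  unfold PP pp
  rw [Complex.re_sum]
  apply Finset.sum_congr rfl
  intro l _
  rw [Complex.inner, mul_comm]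
  rfl

theorem PP_I (j : Fin n) (x : Cn n) : PP Φ (Pi.single j Complex.I) x = -(pp Φ x j).im := by
  unfold PP pp
  rw [Complex.im_sum, ← Finset.sum_neg_distrib]
  apply Finset.sum_congr rfl
  intro l _
  rw [Complex.inner, fd_I]
  simp only [jacM, Matrix.of_apply, Complex.star_def, Complex.mul_re, Complex.mul_im,
    Complex.conj_re, Complex.conj_im, Complex.I_re, Complex.I_im]
  ring

/-- the sesquilinear part -/
noncomputable def qq (Φ : Cn n → Fin n → ℂ) (x : Cn n) (j k : Fin n) : ℂ :=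
  ∑ l, jacM Φ x l j * star (jacM Φ x l k)

theorem EE_re (hΦ : ∀ j, ContDiff ℂ ∞ (fun x => Φ x j)) (j k : Fin n) (x : Cn n) :
    EE Φ x (Pi.single j 1) (Pi.single k 1) +
      EE Φ x (Pi.single j Complex.I) (Pi.single k Complex.I) = 2 * (qq Φ x j k).re := by
  unfold EE qq
  rw [Complex.re_sum, ← Finset.sum_add_distrib, Finset.mul_sum]
  apply Finset.sum_congr rfl
  intro l _
  simp only [Complex.inner, fd_I, DD_I_left, DD_I_right hΦ, jacM, Matrix.of_apply,
    Complex.star_def, Complex.mul_re, Complex.mul_im,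
    Complex.conj_re, Complex.conj_im, Complex.I_re, Complex.I_im]
  ring

theorem EE_im (hΦ : ∀ j, ContDiff ℂ ∞ (fun x => Φ x j)) (j k : Fin n) (x : Cn n) :
    EE Φ x (Pi.single j 1) (Pi.single k Complex.I) -
      EE Φ x (Pi.single j Complex.I) (Pi.single k 1) = 2 * (qq Φ x j k).im := by
  unfold EE qq
  rw [Complex.im_sum, ← Finset.sum_sub_distrib, Finset.mul_sum]
  apply Finset.sum_congr rfl
  intro l _
  simp only [Complex.inner, fd_I, DD_I_left, DD_I_right hΦ, jacM, Matrix.of_apply,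
    Complex.star_def, Complex.mul_re, Complex.mul_im,
    Complex.conj_re, Complex.conj_im, Complex.I_re, Complex.I_im]
  ring

/-- the complex Hessian -/
theorem levi_lg (hΦ : ∀ j, ContDiff ℂ ∞ (fun x => Φ x j)) {τ : ℝ} (hτ : 0 < τ) (a c : ℝ)
    (x : Cn n) (j k : Fin n) : levi (lg Φ τ a c) x j k =
      (a : ℂ) * (qq Φ x j k / (SS Φ τ x : ℂ) -
        pp Φ x j * star (pp Φ x k) / (SS Φ τ x : ℂ) ^ 2) := by
  have hS := (SS_pos (Φ := Φ) hτ x).ne'
  unfold levi
  rw [Matrix.of_apply, lg_D2 hΦ hτ, lg_D2 hΦ hτ, lg_D2 hΦ hτ, lg_D2 hΦ hτ]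
  have h1 := EE_re hΦ j k x
  have h2 := EE_im hΦ j k x
  have e1 : a * (2 * EE Φ x (Pi.single j 1) (Pi.single k 1) / SS Φ τ x -
      4 * PP Φ (Pi.single k 1) x * PP Φ (Pi.single j 1) x / SS Φ τ x ^ 2) +
      a * (2 * EE Φ x (Pi.single j Complex.I) (Pi.single k Complex.I) / SS Φ τ x -
      4 * PP Φ (Pi.single k Complex.I) x * PP Φ (Pi.single j Complex.I) x / SS Φ τ x ^ 2) =
      4 * (a * ((qq Φ x j k).re / SS Φ τ x - (pp Φ x j * star (pp Φ x k)).re / SS Φ τ x ^ 2)) := by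
    rw [PP_one, PP_one, PP_I, PP_I]
    simp only [Complex.star_def, Complex.mul_re, Complex.conj_re, Complex.conj_im]
    have : EE Φ x (Pi.single j 1) (Pi.single k 1) = 2 * (qq Φ x j k).re -
      EE Φ x (Pi.single j Complex.I) (Pi.single k Complex.I) := by linarith
    rw [this]
    ring
  have e2 : a * (2 * EE Φ x (Pi.single j 1) (Pi.single k Complex.I) / SS Φ τ x -
      4 * PP Φ (Pi.single k Complex.I) x * PP Φ (Pi.single j 1) x / SS Φ τ x ^ 2) -
      a * (2 * EE Φ x (Pi.single j Complex.I) (Pi.single k 1) / SS Φ τ x -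
      4 * PP Φ (Pi.single k 1) x * PP Φ (Pi.single j Complex.I) x / SS Φ τ x ^ 2) =
      4 * (a * ((qq Φ x j k).im / SS Φ τ x - (pp Φ x j * star (pp Φ x k)).im / SS Φ τ x ^ 2)) := by
    rw [PP_one, PP_one, PP_I, PP_I]
    simp only [Complex.star_def, Complex.mul_im, Complex.conj_re, Complex.conj_im]
    have : EE Φ x (Pi.single j 1) (Pi.single k Complex.I) = 2 * (qq Φ x j k).im +
      EE Φ x (Pi.single j Complex.I) (Pi.single k 1) := by linarith
    rw [this]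
    ring
  rw [e1, e2]
  have h3 := Complex.re_add_im (qq Φ x j k)
  have h4 := Complex.re_add_im (pp Φ x j * star (pp Φ x k))
  rw [← h3, ← h4]
  simp only [Complex.add_re, Complex.add_im, Complex.ofReal_re, Complex.ofReal_im, Complex.mul_re,
    Complex.mul_im, Complex.I_re, Complex.I_im]
  push_cast
  ring

theorem levi_matrix (hΦ : ∀ j, ContDiff ℂ ∞ (fun x => Φ x j)) {τ : ℝ} (hτ : 0 < τ) (a c : ℝ)
    (x : Cn n) : levi (lg Φ τ a c) x = ((a : ℂ) / SS Φ τ x) • ((jacM Φ x)ᵀ *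
      (1 - replicateCol Unit (fun l => star (Φ x l)) *
        replicateRow Unit (fun l => Φ x l / (SS Φ τ x : ℂ))) * (jacM Φ x).map star) := by
  ext j k
  rw [levi_lg hΦ hτ, Matrix.smul_apply, smul_eq_mul]
  have hS : (SS Φ τ x : ℂ) ≠ 0 := by exact_mod_cast (SS_pos (Φ := Φ) hτ x).ne'
  have h1 : ((jacM Φ x)ᵀ * (1 - replicateCol Unit (fun l => star (Φ x l)) *
      replicateRow Unit (fun l => Φ x l / (SS Φ τ x : ℂ))) * (jacM Φ x).map star :
      Matrix (Fin n) (Fin n) ℂ) j k =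
      qq Φ x j k - pp Φ x j * star (pp Φ x k) / SS Φ τ x := by
    rw [Matrix.mul_sub, Matrix.mul_one, Matrix.sub_mul, Matrix.sub_apply]
    congr 1
    rw [← Matrix.mul_assoc, Matrix.mul_assoc, Matrix.mul_apply]
    simp only [Finset.univ_unique, Finset.sum_singleton]
    have e1 : ((jacM Φ x)ᵀ * replicateCol Unit (fun l => star (Φ x l)) :
        Matrix (Fin n) Unit ℂ) j default = pp Φ x j := by
      rw [Matrix.mul_apply]
      unfold pp
      apply Finset.sum_congr rfl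
      intro l _
      rw [Matrix.transpose_apply, Matrix.replicateCol_apply, mul_comm]
    have e2 : (replicateRow Unit (fun l => Φ x l / (SS Φ τ x : ℂ)) * (jacM Φ x).map star :
        Matrix Unit (Fin n) ℂ) default k = star (pp Φ x k) / SS Φ τ x := by
      rw [Matrix.mul_apply]
      unfold pp
      rw [star_sum, Finset.sum_div]
      apply Finset.sum_congr rfl
      intro l _
      rw [Matrix.map_apply, Matrix.replicateRow_apply, star_mul', star_star]
      ring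
    rw [e1, e2]
    ring
  rw [h1]
  field_simp

theorem det_levi (hΦ : ∀ j, ContDiff ℂ ∞ (fun x => Φ x j)) {τ : ℝ} (hτ : 0 < τ) (a c : ℝ)
    (x : Cn n) : (levi (lg Φ τ a c) x).det =
      ((a ^ n * τ * ‖(jacM Φ x).det‖ ^ 2 / SS Φ τ x ^ (n + 1) : ℝ) : ℂ) := by
  have hS : (SS Φ τ x : ℂ) ≠ 0 := by exact_mod_cast (SS_pos (Φ := Φ) hτ x).ne'
  rw [levi_matrix hΦ hτ, Matrix.det_smul, Matrix.det_mul, Matrix.det_mul, Matrix.det_transpose,
    Matrix.det_one_sub_mul_comm]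
  have h1 : ((jacM Φ x).map star).det = star (jacM Φ x).det :=
    (RingHom.map_det (starRingEnd ℂ) (jacM Φ x)).symm
  have h2 : (1 - replicateRow Unit (fun l => Φ x l / (SS Φ τ x : ℂ)) *
      replicateCol Unit (fun l => star (Φ x l)) : Matrix Unit Unit ℂ).det =
      (τ : ℂ) / SS Φ τ x := by
    rw [Matrix.det_unique, Matrix.sub_apply, Matrix.one_apply_eq, Matrix.mul_apply]
    have h3 : ∑ l, replicateRow Unit (fun l => Φ x l / (SS Φ τ x : ℂ)) default l *
        replicateCol Unit (fun l => star (Φ x l)) l default =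
        ((SS Φ τ x : ℂ) - τ) / SS Φ τ x := by
      unfold SS
      push_cast
      rw [add_sub_cancel_right, Finset.sum_div]
      apply Finset.sum_congr rfl
      intro l _
      rw [Matrix.replicateRow_apply, Matrix.replicateCol_apply, ← Complex.mul_conj']
      simp only [Complex.star_def]
      ring
    rw [h3]
    field_simp
    ring
  rw [h1, h2, Fintype.card_fin]
  have h3 : (((jacM Φ x).det * star (jacM Φ x).det : ℂ)) = ((‖(jacM Φ x).det‖ ^ 2 : ℝ) : ℂ) := by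
    rw [Complex.star_def, Complex.mul_conj']
    push_cast
    rfl
  have h4 : (jacM Φ x).det * ((τ : ℂ) / SS Φ τ x) * star (jacM Φ x).det =
      ((jacM Φ x).det * star (jacM Φ x).det) * ((τ : ℂ) / SS Φ τ x) := by ring
  rw [h4, h3, div_pow]
  push_cast
  field_simp
  ring

theorem contDiff_lg (hΦ : ∀ j, ContDiff ℂ ∞ (fun x => Φ x j)) {τ : ℝ} (hτ : 0 < τ) (a c : ℝ) :
    ContDiff ℝ ∞ (lg Φ τ a c) := by
  have h1 : ContDiff ℝ ∞ (SS Φ τ) := by
    unfold SS
    refine ContDiff.add (ContDiff.sum fun l _ => ?_) contDiff_const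
    exact ((hΦ l).restrict_scalars ℝ).norm_sq ℝ
  have h2 : ContDiff ℝ ∞ (fun y => Real.log (SS Φ τ y)) := h1.log fun y => (SS_pos hτ y).ne'
  exact (contDiff_const.mul h2).add contDiff_const

theorem z6 : Z6Stmt := by
  intro n Φ hΦ τ a c hτ x
  exact ⟨contDiff_lg hΦ hτ a c, det_levi hΦ hτ a c x⟩

end Pool.Agent.Helper28.ZM
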